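import Pool.Agent.X156.CY.Data

/-!
# The cyclopolytope `N_105` is not reflexive

The polar of `N_105` is affinely isomorphic to the three-way transportation polytope of the
nonnegative `3 × 5 × 7` arrays all of whose line sums in the three directions are `3`, `5`, `7`
(put `x_r = 1 - ⟨a^(r), y⟩` and `r = (r mod 3, r mod 5, r mod 7)`). This polytope has half-integral
vertices. One of them is given explicitly; that it is a vertex is proved by linear elimination.
-/

set_option autoImplicit false

open Polynomial

namespace Pool.Agent.Results.MP_c80912_nt.NotReflexive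

open Pool.Agent.X156.CY

theorem totient_eq : Nat.totient 105 = 48 := by decide

/-- the vertex of the polar -/
noncomputable def vert : Fin (Nat.totient 105) → ℝ := fun s => (f2 s : ℝ) / 2

theorem vert_eval : ∀ n, n < 105 → ev 105 vert (X ^ n) = (f2 n : ℝ) / 2 := by
  intro n
  induction n using Nat.strong_induction_on with
  | _ n ih =>
    intro hn
    by_cases h48 : n < 48
    · have h := ev_X_pow_lt 105 vert ⟨n, by rw [totient_eq]; exact h48⟩
      exact h
    · obtain ⟨m, rfl⟩ := Nat.exists_eq_add_of_le' (show 48 ≤ n by omega)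
      have h1 := ev_rec vert (fun n => ev 105 vert (X ^ n)) (fun _ => rfl) m
      have h2 : ((_ : ℤ) : ℝ) = ((0 : ℤ) : ℝ) := congrArg Int.cast (f2_rec m (by omega))
      push_cast at h2
      have h3 : ∀ s, s < 48 → ev 105 vert (X ^ (m + s)) = (f2 (m + s) : ℝ) / 2 :=
        fun s hs => ih (m + s) (by omega) (by omega)
      have h4 := h3 0 (by norm_num)
      rw [add_zero] at h4
      simp only [h4, h3 1 (by norm_num), h3 2 (by norm_num), h3 5 (by norm_num),
        h3 6 (by norm_num), h3 7 (by norm_num), h3 8 (by norm_num), h3 9 (by norm_num),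
        h3 12 (by norm_num), h3 13 (by norm_num), h3 14 (by norm_num), h3 15 (by norm_num),
        h3 16 (by norm_num), h3 17 (by norm_num), h3 20 (by norm_num), h3 22 (by norm_num),
        h3 24 (by norm_num), h3 26 (by norm_num), h3 28 (by norm_num), h3 31 (by norm_num),
        h3 32 (by norm_num), h3 33 (by norm_num), h3 34 (by norm_num), h3 35 (by norm_num),
        h3 36 (by norm_num), h3 39 (by norm_num), h3 40 (by norm_num), h3 41 (by norm_num),
        h3 42 (by norm_num), h3 43 (by norm_num), h3 46 (by norm_num),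
        h3 47 (by norm_num)] at h1
      linarith

theorem vert_mem : vert ∈ polar (cyclopolytope 105) := by
  rw [mem_polar_iff]
  intro r hr
  rw [vert_eval r hr]
  have : (f2 r : ℝ) ≤ 2 := by exact_mod_cast f2_le r hr
  linarith

theorem sums (w : Fin (Nat.totient 105) → ℝ) :
    (∀ r < 35, ev 105 w (X ^ r) + ev 105 w (X ^ (r + 35)) + ev 105 w (X ^ (r + 70)) = 0) ∧
    (∀ r < 21, ev 105 w (X ^ r) + ev 105 w (X ^ (r + 21)) + ev 105 w (X ^ (r + 42)) +
      ev 105 w (X ^ (r + 63)) + ev 105 w (X ^ (r + 84)) = 0) ∧
    (∀ r < 15, ev 105 w (X ^ r) + ev 105 w (X ^ (r + 15)) + ev 105 w (X ^ (r + 30)) +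
      ev 105 w (X ^ (r + 45)) + ev 105 w (X ^ (r + 60)) + ev 105 w (X ^ (r + 75)) +
      ev 105 w (X ^ (r + 90)) = 0) := by
  refine ⟨fun r _ => ?_, fun r _ => ?_, fun r _ => ?_⟩
  · have h := ev_coset (k := 105) (p := 3) (q := 35) rfl (by norm_num) (by norm_num) w r
    simp only [Finset.sum_range_succ, Finset.sum_range_zero, zero_add, mul_zero, add_zero,
      mul_one] at h
    exact h
  · have h := ev_coset (k := 105) (p := 5) (q := 21) rfl (by norm_num) (by norm_num) w r
    simp only [Finset.sum_range_succ, Finset.sum_range_zero, zero_add, mul_zero, add_zero,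
      mul_one] at h
    exact h
  · have h := ev_coset (k := 105) (p := 7) (q := 15) rfl (by norm_num) (by norm_num) w r
    simp only [Finset.sum_range_succ, Finset.sum_range_zero, zero_add, mul_zero, add_zero,
      mul_one] at h
    exact h

theorem ev_comb (u v : Fin (Nat.totient 105) → ℝ) (a b : ℝ) (p : ℤ[X]) :
    ev 105 (a • u + b • v) p = a * ev 105 u p + b * ev 105 v p := by
  unfold ev
  rw [Finset.mul_sum, Finset.mul_sum, ← Finset.sum_add_distrib]
  refine Finset.sum_congr rfl fun s _ => ?_
  simp only [Pi.add_apply, Pi.smul_apply, smul_eq_mul]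
  ring

/-- A point of the polar that has the value one where the vertex has, is the vertex. -/
theorem eq_vert {u : Fin (Nat.totient 105) → ℝ}
    (h : ∀ r < 105, f2 r = 2 → ev 105 u (X ^ r) = 1) : u = vert := by
  obtain ⟨a3, a5, a7⟩ := sums u
  obtain ⟨b3, b5, b7⟩ := sums vert
  have hz := elim (fun r => ev 105 u (X ^ r) - ev 105 vert (X ^ r))
    (fun r hr => by
      have h1 := a3 r hr
      have h2 := b3 r hr
      linarith)
    (fun r hr => by
      have h1 := a5 r hr
      have h2 := b5 r hr
      linarith)
    (fun r hr => by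
      have h1 := a7 r hr
      have h2 := b7 r hr
      linarith)
    (fun r hr h2 => by
      rw [h r hr h2, vert_eval r hr, h2]
      norm_num)
  funext s
  have hs : (s : ℕ) < 105 := lt_of_lt_of_le s.2 (by rw [totient_eq]; norm_num)
  have h1 := hz s hs
  rw [ev_X_pow_lt, ev_X_pow_lt] at h1
  linarith

theorem vert_extreme : vert ∈ (polar (cyclopolytope 105)).extremePoints ℝ := by
  rw [mem_extremePoints]
  refine ⟨vert_mem, ?_⟩
  have key : ∀ u ∈ polar (cyclopolytope 105), ∀ v ∈ polar (cyclopolytope 105), ∀ a b : ℝ,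
      0 < a → 0 < b → a + b = 1 → a • u + b • v = vert → u = vert := by
    intro u hu v hv a b ha hb hab h
    apply eq_vert
    intro r hr h2
    have h3 := vert_eval r hr
    rw [← h, ev_comb, h2] at h3
    push_cast at h3
    have h4 := mem_polar_iff.1 hu r hr
    have h5 := mem_polar_iff.1 hv r hr
    by_contra hne
    have h6 : ev 105 u (X ^ r) < 1 := lt_of_le_of_ne h4 hne
    nlinarith
  intro u hu v hv h
  obtain ⟨a, b, ha, hb, hab, h⟩ := h
  exact ⟨key u hu v hv a b ha hb hab h,
    key v hv u hu b a hb ha (by linarith) (by rw [add_comm]; exact h)⟩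

/-- **Negative answer to Q1.** The polar of the cyclopolytope `N_105` has a vertex that is not
integral (it is half-integral), so `N_105` is not reflexive, and it is false that `N_k` is reflexive
for every `k ≥ 2`. -/
theorem result :
    (∃ y ∈ (polar (cyclopolytope 105)).extremePoints ℝ, ∃ i, y i = 1 / 2) ∧
    ¬ IsReflexive (cyclopolytope 105) ∧ ¬ ∀ k : ℕ, 2 ≤ k → IsReflexive (cyclopolytope k) := by
  have h0 : vert ⟨17, by rw [totient_eq]; norm_num⟩ = 1 / 2 := by
    have : f2 17 = 1 := by decide
    simp only [vert, this]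
    norm_num
  have h1 : ¬ IsReflexive (cyclopolytope 105) := by
    intro h
    obtain ⟨m, hm⟩ := h.2.2 vert vert_extreme ⟨17, by rw [totient_eq]; norm_num⟩
    rw [h0] at hm
    have h2 : (1 : ℤ) = 2 * m := by
      have : (1 : ℝ) = 2 * m := by linarith
      exact_mod_cast this
    omega
  exact ⟨⟨vert, vert_extreme, _, h0⟩, h1, fun h => h1 (h 105 (by norm_num))⟩

end Pool.Agent.Results.MP_c80912_nt.NotReflexive
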